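import Mathlib
import Pool.Agent.Y725.UG.Gen
import Pool.Agent.TH949.UL.DQ

/-!
# The Ramanujan conjecture for `GL(2)` and `GL(3)` over number fields: the least tempered place

Let `K` be a number field, `n = 2` or `n = 3`, and let `π` be a unitary cuspidal automorphic representation of `GL_n`
over `K`. We show: for every `ε > 0` there is a constant `A`, depending only on `K` and `ε`, such that for every such
`π` there is a finite place `v` with

  `π_v` tempered and `N v ≤ A C^{1+ε}`, `C = Q² ∏_j (1 + |κ_j|) ∏_{(v, i) ∈ T} N v`,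

where `Q²` is the conductor of the adjoint `L`-function `L(s, π, Ad) = L(s, π × π~) / ζ_K(s)` and the
`Γ_ℝ(s + κ_j)` are its Gamma factors. (For `n = 2` one of the infinite components has to be a principal series.)

Here `S` is a finite set of finite places; one may take for `S` the set of the places `v` at which `π_v` is not a twist
of an unramified representation. For `v ∉ S` let `α_{i,v}` be the Satake parameters of `π_v` (of its unramified
unitary twist). At `v ∈ S` let the `β_{v,i}` be the reciprocal roots of `L(s, π_v, Ad)`, filled up with zeros; the set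
`T` consists of pairs `(v, i)`, `v ∈ S`, with `|β_{v,i}| = 1` such that `∑_i β_{v,i}^k`, `(v, i) ∉ T`, is nonnegative for
all `k ≥ 1`. Such a set exists: `T` is empty at `v` if `π_v` is not supercuspidal, and for a supercuspidal `π_v` one may
take all `i` with `β_{v,i} ≠ 0`, as they are then roots of unity; in this case the product over `T` is `≤ Q²`. So the
bound is `N v ≤ A C(π, Ad)^{2+ε}` in terms of the analytic conductor.

Known before: infinitely many tempered places (for `n = 3` Ramakrishnan), and bounds for their number which hold for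
fixed `π`, such as `SmallEigenvaluesGL3` of this problem; they say nothing about the first tempered place. For `K = ℚ`
and `π` unramified everywhere see `MP_fa98d2_nt.LeastSmallTrace`.

The structure `CuspidalGL` lists what is used of `π`: the components are unitary; the bounds `|α_{i,v}| < (N v)^{1/2}` of
Jacquet and Shalika, and the corresponding ones at `S` and at infinity; `L(s, π, Ad)` is entire with its functional
equation and has polynomial growth in vertical strips (Gelbart, Jacquet for `n = 2`; for `n = 3` see Ginzburg, Jiang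
and Hundley, Zhang: the finite part is holomorphic for `Re s ≥ 1/2`, and as `L(s, π × π~)` is entire apart from simple
poles at `0` and `1`, the completed function can only have a pole if a real zero of `ζ_K` coincides with a pole of a
local factor at infinity).

The proof is a uniform version of Landau's theorem, see `Pool.Agent.TH949.UL`: if `|∑_i α_{i,v}^k| ≥ 1` for all
`(N v)^k ≤ X`, `v ∉ S`, then the coefficients of `F(s) = ∏ (1 - β_{v,i} (N v)^{-s}) L(s, π, Ad)`, the product over
`T`, are nonnegative up to `X`; the smoothed sum of `F` at `s = -3/2 + i t` is then at most the one at `s = -3/2`,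
which contradicts the functional equation for some bounded `t`. A small trace implies that `π_v` is tempered.
-/

set_option autoImplicit false

namespace Pool.Agent.Results.MP_8410ab_nt.LeastTemperedPlace

open NumberField IsDedekindDomain

/-- the finite places of `K` outside `S` -/
abbrev Places {K : Type} [Field K] [NumberField K] (S : Finset (HeightOneSpectrum (𝓞 K))) :=
  {v : HeightOneSpectrum (𝓞 K) // v ∉ S}

/-- the norm of a finite place -/
noncomputable def Nm {K : Type} [Field K] [NumberField K] (v : HeightOneSpectrum (𝓞 K)) : ℕ :=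
  Ideal.absNorm v.asIdeal

/-- `∑_{v ∉ S} ∑_{k ≥ 1} (|∑_i α_{i,v}^k|² - 1) / k · (N v)^{-ks}`, the logarithm of the partial adjoint `L`-function
`L^S(s, π, Ad) = ∏_{v ∉ S} (1 - (N v)^{-s}) L(s, π_v × π~_v)` -/
noncomputable def logAd {K : Type} [Field K] [NumberField K] {S : Finset (HeightOneSpectrum (𝓞 K))} {n : ℕ}
    (α : Places S → Fin n → ℂ) (s : ℂ) : ℂ :=
  ∑' x : Places S × ℕ, (((‖∑ i, α x.1 i ^ (x.2 + 1)‖ ^ 2 - 1) / ((x.2 : ℝ) + 1) : ℝ) : ℂ) *
    (((Nm x.1.1 : ℕ) : ℂ) ^ (-s)) ^ (x.2 + 1)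

/-- What is used of a unitary cuspidal automorphic representation `π` of `GL_n` over `K`: `α` are the Satake parameters
outside `S`, `β` the reciprocal roots of the adjoint local factors at `S`, `T` the factors to be removed, `κ` the
parameters of the Gamma factors and `Q²` the conductor of the adjoint `L`-function. -/
structure CuspidalGL {K : Type} [Field K] [NumberField K] {S : Finset (HeightOneSpectrum (𝓞 K))} {n : ℕ}
    (α : Places S → Fin n → ℂ) (β : HeightOneSpectrum (𝓞 K) → Fin (n ^ 2 - 1) → ℂ)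
    (T : Finset (HeightOneSpectrum (𝓞 K) × Fin (n ^ 2 - 1)))
    (κ : Fin ((n ^ 2 - 1) * Module.finrank ℚ K) → ℂ) (Q : ℝ) : Prop where
  /-- the Satake parameters are nonzero -/
  ne_zero : ∀ v i, α v i ≠ 0
  /-- the unramified components are unitary -/
  unitary : ∀ v, ∃ τ : Equiv.Perm (Fin n), ∀ i, α v (τ i) = ((starRingEnd ℂ) (α v i))⁻¹
  /-- the bound of Jacquet and Shalika -/
  bound : ∀ v i, ‖α v i‖ < (Nm v.1 : ℝ) ^ (1 / 2 : ℝ)
  /-- the same at the places of `S` -/
  ramified : ∀ v ∈ S, ∀ i, ‖β v i‖ < (Nm v : ℝ)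
  /-- the removed factors -/
  removed : ∀ x ∈ T, x.1 ∈ S ∧ ‖β x.1 x.2‖ = 1
  /-- the logarithms of the other factors at `S` have nonnegative coefficients -/
  nonneg : ∀ v ∈ S, ∀ k : ℕ, ∃ c : ℝ, 0 ≤ c ∧
    ∑ i, Set.indicator {i | (v, i) ∉ T} (fun i => β v i ^ (k + 1)) i = (c : ℂ)
  /-- the conductor -/
  one_le : 1 ≤ Q
  /-- the components at infinity are unitary -/
  conj : Multiset.map (fun j => (starRingEnd ℂ) (κ j)) Finset.univ.val = Multiset.map κ Finset.univ.val
  /-- the bound of Jacquet and Shalika at infinity -/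
  re : ∀ j, -1 < (κ j).re
  /-- a factor `Γ_ℝ(s)`; for `n = 3` there always is one -/
  zero : ∃ j, κ j = 0
  /-- the adjoint `L`-function: `F` is the finite part, `Ξ` the completed one -/
  adjoint : ∃ (F Ξ : ℂ → ℂ) (ω : ℂ), Differentiable ℂ F ∧ Differentiable ℂ Ξ ∧ ‖ω‖ = 1 ∧
    (∀ a b : ℝ, ∃ (C : ℝ) (A : ℕ), ∀ s : ℂ, a ≤ s.re → s.re ≤ b → ‖F s‖ ≤ C * (1 + |s.im|) ^ A) ∧
    (∀ s : ℂ, 1 < s.re → F s * ∏ v ∈ S, ∏ i, (1 - β v i * ((Nm v : ℕ) : ℂ) ^ (-s)) =
      Complex.exp (logAd α s)) ∧
    (∀ s : ℂ, 1 < s.re → Ξ s = F s * ((Q : ℂ) ^ s * ∏ j, Complex.Gammaℝ (s + κ j))) ∧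
    ∀ s : ℂ, Ξ (1 - s) = ω * Ξ s

/-- **The least tempered place for `GL(2)` and `GL(3)` over a number field.** -/
theorem result (K : Type) [Field K] [NumberField K] {n : ℕ} (hn : n = 2 ∨ n = 3) {ε : ℝ} (hε : 0 < ε) :
    ∃ A : ℝ, 0 < A ∧ ∀ (S : Finset (HeightOneSpectrum (𝓞 K))) (α : Places S → Fin n → ℂ)
      (β : HeightOneSpectrum (𝓞 K) → Fin (n ^ 2 - 1) → ℂ) (T : Finset (HeightOneSpectrum (𝓞 K) × Fin (n ^ 2 - 1)))
      (κ : Fin ((n ^ 2 - 1) * Module.finrank ℚ K) → ℂ) (Q : ℝ), CuspidalGL α β T κ Q →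
      ∃ (v : Places S) (k : ℕ), 1 ≤ k ∧
        (Nm v.1 : ℝ) ^ k ≤ A * (Q ^ 2 * (∏ j, (1 + ‖κ j‖)) * ∏ x ∈ T, (Nm x.1 : ℝ)) ^ (1 + ε) ∧
        ‖∑ i, α v i ^ k‖ < 1 ∧ ∀ i, ‖α v i‖ = 1 := by
  obtain ⟨A, hA0, hA⟩ := Pool.Agent.Y725.UG.gln_least K n (n ^ 2 - 1) ((n ^ 2 - 1) * Module.finrank ℚ K)
    Pool.Agent.TH949.UL.den_one hε
  refine ⟨A, hA0, fun S α β T κ Q h => ?_⟩
  obtain ⟨F, Ξ, ω, hF, hΞ, hω, hgr, hE, hΞF, hfe⟩ := h.adjoint
  obtain ⟨v, k, hk, hle, hlt⟩ := hA S α β T κ Q F
    ⟨h.bound, h.ramified, h.removed, fun v hv k => by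
      obtain ⟨c, hc, hc2⟩ := h.nonneg v hv k
      refine ⟨c, hc, ?_⟩
      rw [← hc2]
      refine Finset.sum_congr rfl fun i _ => ?_
      by_cases hi : (v, i) ∈ T
      · rw [if_pos hi, Set.indicator_of_notMem (by simpa using hi)]
      · rw [if_neg hi, Set.indicator_of_mem (by simpa using hi)]⟩
    ⟨h.one_le, h.conj, h.re, hF, hgr, Ξ, ω, hω, hΞ, fun s hs => hΞF s (by linarith), hfe⟩ h.zero
    (fun s hs => by
      rw [one_mul]
      exact hE s (by linarith))
  refine ⟨v, k, hk, hle, hlt, ?_⟩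
  exact Pool.Agent.TH949.UL.temp_of_pow (by omega) (h.ne_zero v) (h.unitary v) hk hlt (by omega)

end Pool.Agent.Results.MP_8410ab_nt.LeastTemperedPlace
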