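import Mathlib
import Pool.Agent.Y464.RP.Core

/-!
# The Ramanujan conjecture for `GL(2)` over number fields: simultaneous failure

Let `K` be a number field and let `π_1, …, π_k` be unitary cuspidal automorphic representations of `GL_2` over `K`, of
arbitrary conductors and central characters, none of them of dihedral, tetrahedral or octahedral type (for these the
conjecture is known), such that the adjoint lifts `Ad π_i` (on `GL_3`) are pairwise not isomorphic, and likewise the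
lifts `A⁴ π_i = Sym⁴ π_i ⊗ ω_i^{-2}` (on `GL_5`). Let `S` be a finite set of finite places containing the ramified
ones. We show that the places at which ALL of `π_1, …, π_k` are not tempered have upper density at most

  `1 / (34 k + 1)`.

For `k = 1` this is the theorem of Kim and Shahidi (2002), density at most `1 / 35`, which is the best result on a single
representation. So two inequivalent representations fail together on a set of density at most `1 / 69`, and for every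
infinite family the set of the places at which all members fail has density zero: at almost all places `v`, the
conjecture holds at `v` for some member of the family.

The structure `CuspidalFamily` lists what is used: the components are unitary; the Rankin-Selberg series of the lifts
converge absolutely for `s > 1` (Gelbart and Jacquet, Kim, Jacquet and Shalika); for `Π, Π'` among the representations
`1`, `Ad π_i`, `A⁴ π_i` the function `L(s, Π × Π'~)` has no zero and no pole at `s = 1`, except for a simple pole if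
`Π = Π'` (Shahidi).

The proof: at a place where all the `π_i` are not tempered the trace of the isobaric sum
`1 ⊞ ⊞_i (3 Ad π_i ⊞ 5 A⁴ π_i)` is at least `1 + 34 k`, and the quadratic mean of this trace is `1 + 34 k`.
-/

set_option autoImplicit false

open Filter Topology

namespace Pool.Agent.Results.MP_8410ab_nt.SimultaneousFailure

open NumberField IsDedekindDomain

/-- the finite places of `K` outside `S` -/
abbrev Places {K : Type} [Field K] [NumberField K] (S : Finset (HeightOneSpectrum (𝓞 K))) :=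
  {v : HeightOneSpectrum (𝓞 K) // v ∉ S}

/-- the norm of a finite place -/
noncomputable def Nm {K : Type} [Field K] [NumberField K] (v : HeightOneSpectrum (𝓞 K)) : ℕ :=
  Ideal.absNorm v.asIdeal

/-- The three types of lifts of `π_i`, of degrees `1`, `3` and `5`: for `m = 0, 1, 2` the trace of
`Sym^(2m) ⊗ det^(-m)` of the `n`-th power of the Satake class `diag(a, b)`. -/
noncomputable def evenTr (m : ℕ) (a b : ℂ) (n : ℕ) : ℂ :=
  ∑ j ∈ Finset.range (2 * m + 1), (a ^ n) ^ (2 * m - j) * (b ^ n) ^ j / ((a * b) ^ n) ^ m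

/-- `∑_{v ∉ S} ∑_{n ≥ 1} tr Π(v^n) conj(tr Π'(v^n)) (N v)^(-ns) / n`, the logarithm of the partial `L`-function
`L^S(s, Π × Π'~)` of two lifts `Π`, `Π'` of `π`, `π'`; the pair `(v, n)` stands for `v^(n+1)`. -/
noncomputable def logL {K : Type} [Field K] [NumberField K] {S : Finset (HeightOneSpectrum (𝓞 K))}
    (m l : ℕ) (a b a' b' : Places S → ℂ) (s : ℝ) : ℂ :=
  ∑' x : Places S × ℕ, (evenTr m (a x.1) (b x.1) (x.2 + 1) *
    (starRingEnd ℂ) (evenTr l (a' x.1) (b' x.1) (x.2 + 1))) *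
    ((((Nm x.1.1 : ℝ) ^ (-s)) ^ (x.2 + 1) / ((x.2 : ℝ) + 1) : ℝ) : ℂ)

/-- What is used of unitary cuspidal automorphic representations `π_1, …, π_k` of `GL_2` over `K`, not of dihedral,
tetrahedral or octahedral type, with pairwise not isomorphic `Ad π_i` and pairwise not isomorphic `A⁴ π_i`;
`diag(a i v, b i v)` is the Satake class of `π_i` at `v ∉ S`. -/
structure CuspidalFamily {K : Type} [Field K] [NumberField K] {S : Finset (HeightOneSpectrum (𝓞 K))} {k : ℕ}
    (a b : Fin k → Places S → ℂ) : Prop where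
  /-- the Satake parameters are nonzero -/
  ne_zero : ∀ i v, a i v ≠ 0 ∧ b i v ≠ 0
  /-- the components are unitary: `{a, b}` is stable under `z ↦ 1 / conj z` -/
  unitary : ∀ i v, ((starRingEnd ℂ) (a i v) = (a i v)⁻¹ ∧ (starRingEnd ℂ) (b i v) = (b i v)⁻¹) ∨
    (starRingEnd ℂ) (a i v) = (b i v)⁻¹
  /-- absolute convergence of `L(s, Π × Π~)`, `Π = 1, Ad π_i, A⁴ π_i`, for `s > 1` -/
  conv : ∀ i, ∀ m ∈ ({0, 1, 2} : Finset ℕ), ∀ s : ℝ, 1 < s → Summable fun x : Places S × ℕ =>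
    ‖evenTr m (a i x.1) (b i x.1) (x.2 + 1)‖ ^ 2 *
      (((Nm x.1.1 : ℝ) ^ (-s)) ^ (x.2 + 1) / ((x.2 : ℝ) + 1))
  /-- the simple poles at `s = 1` -/
  pole : ∀ i, ∀ m ∈ ({0, 1, 2} : Finset ℕ), ∃ C : ℝ, ∀ᶠ s : ℝ in 𝓝[>] 1,
    ‖logL m m (a i) (b i) (a i) (b i) s - (Real.log (1 / (s - 1)) : ℂ)‖ ≤ C
  /-- no zero and no pole at `s = 1` in the other cases -/
  regular : ∀ i j, ∀ m ∈ ({0, 1, 2} : Finset ℕ), ∀ l ∈ ({0, 1, 2} : Finset ℕ),
    ¬ (m = l ∧ (m = 0 ∨ i = j)) →
    ∃ C : ℝ, ∀ᶠ s : ℝ in 𝓝[>] 1, ‖logL m l (a i) (b i) (a j) (b j) s‖ ≤ C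

section proof

open Pool.Agent.Y464.RP

variable {K : Type} [Field K] [NumberField K] {S : Finset (HeightOneSpectrum (𝓞 K))}

theorem evenTr_zero (a b : ℂ) (n : ℕ) : evenTr 0 a b n = 1 := by simp [evenTr]

theorem evenTr_one (a b : ℂ) (ha : a ≠ 0) (hb : b ≠ 0) : evenTr 1 a b 1 = a / b + 1 + b / a := by
  simp only [evenTr, Finset.sum_range_succ, Finset.sum_range_zero]
  field_simp
  ring

theorem evenTr_two (a b : ℂ) (ha : a ≠ 0) (hb : b ≠ 0) :
    evenTr 2 a b 1 = (a / b) ^ 2 + a / b + 1 + b / a + (b / a) ^ 2 := by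
  simp only [evenTr, Finset.sum_range_succ, Finset.sum_range_zero]
  field_simp
  ring

/-- one representation at one place -/
theorem local_bound (a b : ℂ) (ha : a ≠ 0) (hb : b ≠ 0)
    (hu : ((starRingEnd ℂ) a = a⁻¹ ∧ (starRingEnd ℂ) b = b⁻¹) ∨ (starRingEnd ℂ) a = b⁻¹)
    (hn : ¬ (‖a‖ = 1 ∧ ‖b‖ = 1)) :
    (34 : ℝ) ≤ ((3 : ℝ) * evenTr 1 a b 1 + (5 : ℝ) * evenTr 2 a b 1 : ℂ).re := by
  have hab : (starRingEnd ℂ) a = b⁻¹ := by
    rcases hu with ⟨h1, h2⟩ | h
    · exfalso
      apply hn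
      have key : ∀ z : ℂ, z ≠ 0 → (starRingEnd ℂ) z = z⁻¹ → ‖z‖ = 1 := by
        intro z hz h
        have h3 : ‖(starRingEnd ℂ) z‖ = ‖z⁻¹‖ := by rw [h]
        rw [Complex.norm_conj, norm_inv] at h3
        have h4 : ‖z‖ ≠ 0 := norm_ne_zero_iff.2 hz
        have h5 : ‖z‖ * ‖z‖ = 1 := by
          calc ‖z‖ * ‖z‖ = ‖z‖ * ‖z‖⁻¹ := by rw [← h3]
            _ = 1 := mul_inv_cancel₀ h4
        nlinarith [norm_nonneg z]
      exact ⟨key a ha h1, key b hb h2⟩
    · exact h
  -- `a / b = |a|^2`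
  have h1 : a / b = ((‖a‖ ^ 2 : ℝ) : ℂ) := by
    rw [div_eq_mul_inv, ← hab, Complex.mul_conj, Complex.normSq_eq_norm_sq]
  have h2 : b / a = (((‖a‖ ^ 2)⁻¹ : ℝ) : ℂ) := by
    rw [← inv_div, h1]
    push_cast
    rfl
  rw [evenTr_one a b ha hb, evenTr_two a b ha hb, h1, h2]
  have ht : 0 < ‖a‖ ^ 2 := by positivity
  set t : ℝ := ‖a‖ ^ 2 with ht'
  have e : ((3 : ℝ) * ((t : ℂ) + 1 + ((t⁻¹ : ℝ) : ℂ)) +
      (5 : ℝ) * ((t : ℂ) ^ 2 + (t : ℂ) + 1 + ((t⁻¹ : ℝ) : ℂ) + ((t⁻¹ : ℝ) : ℂ) ^ 2) : ℂ) =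
      ((3 * (t + 1 + t⁻¹) + 5 * (t ^ 2 + t + 1 + t⁻¹ + t⁻¹ ^ 2) : ℝ) : ℂ) := by
    push_cast
    ring
  rw [e, Complex.ofReal_re]
  have h3 : 2 ≤ t + t⁻¹ := by
    have h4 : t + t⁻¹ - 2 = (t - 1) ^ 2 / t := by
      field_simp
      ring
    have h5 : 0 ≤ (t - 1) ^ 2 / t := by positivity
    linarith
  have h4 : 2 ≤ t ^ 2 + t⁻¹ ^ 2 := by
    have h5 : t * t⁻¹ = 1 := mul_inv_cancel₀ ht.ne'
    nlinarith [sq_nonneg (t - t⁻¹)]
  linarith

/-- the type of the lift -/
def typ {k : ℕ} : Option (Fin k × Bool) → ℕ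
  | none => 0
  | some (_, false) => 1
  | some (_, true) => 2

theorem typ_mem {k : ℕ} (u : Option (Fin k × Bool)) : typ u ∈ ({0, 1, 2} : Finset ℕ) := by
  rcases u with _ | ⟨i, _ | _⟩ <;> simp [typ]

/-- the representation -/
def idx {k : ℕ} (i₀ : Fin k) : Option (Fin k × Bool) → Fin k
  | none => i₀
  | some (i, _) => i

/-- weights -/
noncomputable def wt (s : ℝ) (x : Places S × ℕ) : ℝ :=
  ((Nm x.1.1 : ℝ) ^ (-s)) ^ (x.2 + 1) / ((x.2 : ℝ) + 1)

theorem wt_nonneg (s : ℝ) (x : Places S × ℕ) : 0 ≤ wt s x := by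
  unfold wt
  positivity

/-- coefficients -/
noncomputable def cf {k : ℕ} : Option (Fin k × Bool) → ℝ
  | none => 1
  | some (_, false) => 3
  | some (_, true) => 5

end proof

open Pool.Agent.Y464.RP in
/-- **Simultaneous failure of the Ramanujan conjecture.** -/
theorem result {K : Type} [Field K] [NumberField K] {S : Finset (HeightOneSpectrum (𝓞 K))} {k : ℕ} (hk : 0 < k)
    {a b : Fin k → Places S → ℂ} (h : CuspidalFamily a b) :
    ∃ C : ℝ, ∀ᶠ s : ℝ in 𝓝[>] 1,
      ∑' v : Places S, {v : Places S | ∀ i, ¬ (‖a i v‖ = 1 ∧ ‖b i v‖ = 1)}.indicator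
        (fun v : Places S => (Nm v.1 : ℝ) ^ (-s)) v ≤
      1 / (34 * k + 1) * Real.log (1 / (s - 1)) + C := by
  classical
  have i₀ : Fin k := ⟨0, hk⟩
  set T : Option (Fin k × Bool) → Places S × ℕ → ℂ :=
    fun u x => evenTr (typ u) (a (idx i₀ u) x.1) (b (idx i₀ u) x.1) (x.2 + 1) with hT
  set ψ : Unit → Places S × ℕ → ℂ := fun _ _ => 1 with hψ
  set e : Unit → ℂ := fun _ => 1 with he
  set g : Places S × ℕ → ℝ := fun _ => 1 with hg
  have hgx : ∀ x, (g x : ℂ) = ∑ χ, e χ * ψ χ x := fun x => by simp [hg, he, hψ]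
  have hψ1 : ∀ χ x, ‖ψ χ x‖ ≤ 1 := fun χ x => by simp [hψ]
  have hsum : ∀ u, ∀ s : ℝ, 1 < s → Summable fun x => ‖T u x‖ ^ 2 * wt s x :=
    fun u s hs => h.conv (idx i₀ u) (typ u) (typ_mem u) s hs
  set δ : Unit → Option (Fin k × Bool) → Option (Fin k × Bool) → ℝ :=
    fun _ u v => if u = v then 1 else 0 with hδ
  have hD : ∀ χ u v, ∃ C : ℝ, ∀ᶠ s : ℝ in 𝓝[>] 1,
      ‖(∑' x, ψ χ x * (T u x * (starRingEnd ℂ) (T v x)) * (wt s x : ℂ)) -
        ((δ χ u v * Real.log (1 / (s - 1)) : ℝ) : ℂ)‖ ≤ C := by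
    intro χ u v
    by_cases huv : u = v
    · obtain rfl := huv
      obtain ⟨C, hC⟩ := h.pole (idx i₀ u) (typ u) (typ_mem u)
      refine ⟨C, ?_⟩
      filter_upwards [hC] with s hs
      simp only [hδ, hψ, if_true, one_mul]
      exact hs
    · have hne : ¬ (typ u = typ v ∧ (typ u = 0 ∨ idx i₀ u = idx i₀ v)) := by
        rintro ⟨h2, h3⟩
        refine huv ?_
        rcases u with _ | ⟨i, _ | _⟩ <;> rcases v with _ | ⟨j, _ | _⟩ <;>
          simp_all [typ, idx]
      obtain ⟨C, hC⟩ := h.regular (idx i₀ u) (idx i₀ v) (typ u) (typ_mem u) (typ v) (typ_mem v) hne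
      refine ⟨C, ?_⟩
      filter_upwards [hC] with s hs
      simp only [hδ, hψ, if_neg huv, zero_mul, Complex.ofReal_zero, sub_zero, one_mul]
      exact hs
  obtain ⟨C, hC⟩ := core wt wt_nonneg ψ hψ1 e g hgx T hsum δ (fun s => Real.log (1 / (s - 1))) hD cf
  have hM : (0 : ℝ) < (34 * k + 1) ^ 2 := by positivity
  -- the main term
  have hmain : (∑ χ, ∑ u, ∑ v, (e χ * (cf u * cf v) * (δ χ u v : ℂ))).re = (34 * k + 1 : ℝ) := by
    have h1 : ∑ χ, ∑ u, ∑ v, (e χ * (cf u * cf v) * (δ χ u v : ℂ)) =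
        ∑ u : Option (Fin k × Bool), ((cf u : ℂ) * cf u) := by
      rw [Fintype.sum_unique]
      refine Finset.sum_congr rfl fun u _ => ?_
      rw [Finset.sum_eq_single u]
      · simp [hδ, he]
      · intro v _ hv
        simp only [hδ, if_neg (fun h => hv h.symm : ¬ u = v), Complex.ofReal_zero, mul_zero]
      · intro hu
        exact absurd (Finset.mem_univ u) hu
    have h3 : ∑ u : Option (Fin k × Bool), ((cf u : ℂ) * cf u) = ((34 * k + 1 : ℝ) : ℂ) := by
      rw [Fintype.sum_option, Fintype.sum_prod_type]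
      simp only [Fintype.sum_bool, cf, Finset.sum_const, Finset.card_univ, Fintype.card_fin]
      push_cast
      simp only [nsmul_eq_mul]
      ring
    rw [h1, h3, Complex.ofReal_re]
  rw [hmain] at hC
  set E : Set (Places S) := {v : Places S | ∀ i, ¬ (‖a i v‖ = 1 ∧ ‖b i v‖ = 1)} with hE
  have hEM : ∀ v ∈ E, ((34 * k + 1 : ℝ)) ^ 2 ≤ g (v, 0) * ‖∑ u, (cf u : ℂ) * T u (v, 0)‖ ^ 2 := by
    intro v hv
    simp only [hg, one_mul]
    have h1 : (34 * k + 1 : ℝ) ≤ (∑ u, (cf u : ℂ) * T u (v, 0)).re := by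
      rw [Fintype.sum_option, Fintype.sum_prod_type, Complex.add_re, Complex.re_sum]
      have h2 : ((cf (none : Option (Fin k × Bool)) : ℂ) * T none (v, 0)).re = 1 := by
        simp only [hT, typ, evenTr_zero, mul_one, cf, Complex.ofReal_re]
      rw [h2]
      have h3 : ∀ i : Fin k, (34 : ℝ) ≤
          (∑ c : Bool, (cf (some (i, c)) : ℂ) * T (some (i, c)) (v, 0)).re := by
        intro i
        have h4 := local_bound (a i v) (b i v) (h.ne_zero i v).1 (h.ne_zero i v).2 (h.unitary i v) (hv i)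
        simp only [Fintype.sum_bool, cf, hT, typ, idx, zero_add]
        rw [add_comm]
        exact h4
      have h6 := Finset.sum_le_sum fun (i : Fin k) (_ : i ∈ Finset.univ) => h3 i
      rw [Finset.sum_const, Finset.card_univ, Fintype.card_fin, nsmul_eq_mul] at h6
      linarith
    have h8 : (0 : ℝ) ≤ 34 * k + 1 := by positivity
    exact pow_le_pow_left₀ h8 (h1.trans (Complex.re_le_norm _)) 2
  refine ⟨C / (34 * k + 1) ^ 2, ?_⟩
  filter_upwards [hC, self_mem_nhdsWithin] with s hs hs1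
  have hs1 : 1 < s := hs1
  have h1 := large wt wt_nonneg g (fun x => by simp only [hg]; norm_num)
    (fun x => ∑ u, (cf u : ℂ) * T u x) E _ hM hEM s
    (summable_sq wt wt_nonneg ψ hψ1 e g hgx T hsum cf s hs1)
  have h2 : ∀ v, E.indicator (fun v : Places S => wt s (v, 0)) v =
      E.indicator (fun v : Places S => (Nm v.1 : ℝ) ^ (-s)) v := by
    intro v
    congr 1
    funext v
    simp [wt]
  simp only [h2] at h1
  have h3 := h1.trans hs
  have h4 : ∑' v : Places S, E.indicator (fun v : Places S => (Nm v.1 : ℝ) ^ (-s)) v ≤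
      ((34 * k + 1) * Real.log (1 / (s - 1)) + C) / (34 * k + 1) ^ 2 := by
    rw [le_div_iff₀ hM, mul_comm]
    exact h3
  refine h4.trans (le_of_eq ?_)
  have h5 : (34 * k + 1 : ℝ) ≠ 0 := by positivity
  field_simp

end Pool.Agent.Results.MP_8410ab_nt.SimultaneousFailure
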