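import Mathlib
import Pool.Agent.Y725.UG.RatMany
import Pool.Agent.Y725.UG.Temp2

/-!
# The Ramanujan conjecture for `GL(2)`: simultaneously tempered places

Let `π_1, ..., π_m` be unitary cuspidal automorphic representations of `GL_2` over a number field `K`, `m ≥ 2`. We show
that all the `π_i` are tempered at a common finite place `v` with

  `N v ≤ A (C_1 C_2 ... C_m)^{1+ε}`, `A` depending only on `K`, `m` and `ε`,

in each of the following cases:

1. `m ≤ 4`;
2. `m ≤ 9` and no `π_i` is dihedral;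
3. `m ≤ 25`, `K = ℚ` and the symmetric fourth powers of the `π_i` are cuspidal.

Here `C_i` is the analytic conductor of the adjoint `L`-function of `π_i`, of `Ad π_i` and of `Sym⁴ π_i`, respectively,
up to the norms of the finitely many local factors removed at the finite set `S` of bad places. There are no
conditions on the ramification. (The representations excluded in 2 and 3 are tempered at all places.) In case 1 also a prime power `(N v)^k` below the same bound with `∑_i |tr π_{i,v}^k|² < m` is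
found, for every `m`.

The bound is uniform in the representations. For fixed `π_i` the existence of infinitely many such places follows
from the densities of Kim and Shahidi, which give no bound for the first one. For one representation see
`LeastTemperedPlace` of this problem, which says nothing about a place which is good for two of them.

In particular, if `L / K` is a Galois extension of degree at most four (nine) and `π` is a (non-dihedral) cuspidal
representation of `GL_2` over `L`, then, applied to the conjugates of `π`, the theorem gives a place of `K` such that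
`π` is tempered at all the places of `L` above it.

The proof applies a uniform version of Landau's theorem, see `Pool.Agent.TH949.UL`, to the product over `i` of the
adjoint `L`-functions. If `π_{i,v}` is not tempered, then all the power sums of the Satake parameters have absolute
value at least `2`, and those of the two lifts at least `3` and `5`. So if at every small place some `π_{i,v}` is not
tempered, then the logarithm of the product has only nonnegative coefficients `∑_i (|tr|² - 1) / k ≥ 0` up to `X`,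
as `2² ≥ m`, `3² ≥ m`, `5² ≥ m`; this contradicts the functional equation.

Notes on the data. `S` is a finite set of places; it has to contain the places at which some `π_i` is not a twist of
an unramified representation. For `v ∉ S` let `α_{i,v,j}` be the Satake parameters of `π_{i,v}` (of its unramified
unitary twist). At `v ∈ S` let the `β_{i,v,j}` be the reciprocal roots of the adjoint `L`-factor, filled up with zeros;
the set `T_i` consists of pairs `(v, j)`, `v ∈ S`, with `|β_{i,v,j}| = 1` such that `∑_j β_{i,v,j}^k`, `(v, j) ∉ T_i`, is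
nonnegative for all `k ≥ 1`; such a set exists.

The structures `CuspidalGL` and `CuspidalQ` list what is used of a representation: it is unitary; the bounds of
Jacquet and Shalika; the analytic properties of the adjoint `L`-function (Gelbart, Jacquet; for the adjoint lifts
Kim), or over `ℚ` of `L(s, Π × Π~)` (Jacquet, Piatetski-Shapiro, Shalika). They are the same as in
`LeastTemperedPlace` and `MP_08cfa9_nt.LeastSmallTrace`, where this is explained.
-/

set_option autoImplicit false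

namespace Pool.Agent.Results.MP_8410ab_nt.SimultaneouslyTempered

open NumberField IsDedekindDomain

/-- the finite places of `K` outside `S` -/
abbrev Places {K : Type} [Field K] [NumberField K] (S : Finset (HeightOneSpectrum (𝓞 K))) :=
  {v : HeightOneSpectrum (𝓞 K) // v ∉ S}

/-- the norm of a finite place -/
noncomputable def Nm {K : Type} [Field K] [NumberField K] (v : HeightOneSpectrum (𝓞 K)) : ℕ :=
  Ideal.absNorm v.asIdeal

/-- `∑_{v ∉ S} ∑_{k ≥ 1} (|∑_i α_{i,v}^k|² - 1) / k · (N v)^{-ks}`, the logarithm of the partial adjoint `L`-function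
`L^S(s, π, Ad) = ∏_{v ∉ S} (1 - (N v)^{-s}) L(s, π_v × π~_v)` -/
noncomputable def logAd {K : Type} [Field K] [NumberField K] {S : Finset (HeightOneSpectrum (𝓞 K))} {n : ℕ}
    (α : Places S → Fin n → ℂ) (s : ℂ) : ℂ :=
  ∑' x : Places S × ℕ, (((‖∑ i, α x.1 i ^ (x.2 + 1)‖ ^ 2 - 1) / ((x.2 : ℝ) + 1) : ℝ) : ℂ) *
    (((Nm x.1.1 : ℕ) : ℂ) ^ (-s)) ^ (x.2 + 1)

/-- the primes outside `S` -/
abbrev Unram (S : Finset Nat.Primes) := {p : Nat.Primes // p ∉ S}

/-- the same over `ℚ` -/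
noncomputable def logAdQ {S : Finset Nat.Primes} {n : ℕ} (α : Unram S → Fin n → ℂ) (s : ℂ) : ℂ :=
  ∑' x : Unram S × ℕ, (((‖∑ i, α x.1 i ^ (x.2 + 1)‖ ^ 2 - 1) / ((x.2 : ℝ) + 1) : ℝ) : ℂ) *
    (((x.1.1 : ℕ) : ℂ) ^ (-s)) ^ (x.2 + 1)

/-- the parameters of a unitary representation -/
def Unitary {n : ℕ} (a : Fin n → ℂ) : Prop :=
  (∀ i, a i ≠ 0) ∧ ∃ τ : Equiv.Perm (Fin n), ∀ i, a (τ i) = ((starRingEnd ℂ) (a i))⁻¹

/-- What is used of a unitary cuspidal automorphic representation `π` of `GL_n` over `K`: `α` are the Satake parameters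
outside `S`, `β` the reciprocal roots of the adjoint local factors at `S`, `T` the factors to be removed, `κ` the
parameters of the Gamma factors and `Q²` the conductor of the adjoint `L`-function. -/
structure CuspidalGL {K : Type} [Field K] [NumberField K] {S : Finset (HeightOneSpectrum (𝓞 K))} {n : ℕ}
    (α : Places S → Fin n → ℂ) (β : HeightOneSpectrum (𝓞 K) → Fin (n ^ 2 - 1) → ℂ)
    (T : Finset (HeightOneSpectrum (𝓞 K) × Fin (n ^ 2 - 1)))
    (κ : Fin ((n ^ 2 - 1) * Module.finrank ℚ K) → ℂ) (Q : ℝ) : Prop where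
  /-- the unramified components are unitary -/
  unitary : ∀ v, Unitary (α v)
  /-- the bound of Jacquet and Shalika -/
  bound : ∀ v i, ‖α v i‖ < (Nm v.1 : ℝ) ^ (1 / 2 : ℝ)
  /-- the same at the places of `S` -/
  ramified : ∀ v ∈ S, ∀ i, ‖β v i‖ < (Nm v : ℝ)
  /-- the removed factors -/
  removed : ∀ x ∈ T, x.1 ∈ S ∧ ‖β x.1 x.2‖ = 1
  /-- the logarithms of the other factors at `S` have nonnegative coefficients -/
  nonneg : ∀ v ∈ S, ∀ k : ℕ, ∃ c : ℝ, 0 ≤ c ∧
    ∑ i, Set.indicator {i | (v, i) ∉ T} (fun i => β v i ^ (k + 1)) i = (c : ℂ)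
  /-- the conductor -/
  one_le : 1 ≤ Q
  /-- the components at infinity are unitary -/
  conj : Multiset.map (fun j => (starRingEnd ℂ) (κ j)) Finset.univ.val = Multiset.map κ Finset.univ.val
  /-- the bound of Jacquet and Shalika at infinity -/
  re : ∀ j, -1 < (κ j).re
  /-- the adjoint `L`-function: `F` is the finite part, `Ξ` the completed one -/
  adjoint : ∃ (F Ξ : ℂ → ℂ) (ω : ℂ), Differentiable ℂ F ∧ Differentiable ℂ Ξ ∧ ‖ω‖ = 1 ∧
    (∀ a b : ℝ, ∃ (C : ℝ) (A : ℕ), ∀ s : ℂ, a ≤ s.re → s.re ≤ b → ‖F s‖ ≤ C * (1 + |s.im|) ^ A) ∧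
    (∀ s : ℂ, 1 < s.re → F s * ∏ v ∈ S, ∏ i, (1 - β v i * ((Nm v : ℕ) : ℂ) ^ (-s)) =
      Complex.exp (logAd α s)) ∧
    (∀ s : ℂ, 1 < s.re → Ξ s = F s * ((Q : ℂ) ^ s * ∏ j, Complex.Gammaℝ (s + κ j))) ∧
    ∀ s : ℂ, Ξ (1 - s) = ω * Ξ s

/-- What is used of a unitary cuspidal automorphic representation `Π` of `GL_n` over `ℚ`: `α` are the Satake parameters
outside `S`, `β` the reciprocal roots of `L(s, Π_p × Π~_p) / ζ_p(s)` at `p ∈ S`, `T` the factors to be removed, `0, κ`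
the parameters of the Gamma factors and `Q²` the conductor of `L(s, Π × Π~)`. -/
structure CuspidalQ {S : Finset Nat.Primes} {n : ℕ} (α : Unram S → Fin n → ℂ)
    (β : Nat.Primes → Fin (n ^ 2 - 1) → ℂ) (T : Finset (Nat.Primes × Fin (n ^ 2 - 1)))
    (κ : Fin (n ^ 2 - 1) → ℂ) (Q : ℝ) : Prop where
  /-- the bound of Jacquet and Shalika -/
  bound : ∀ p i, ‖α p i‖ < ((p.1 : ℕ) : ℝ) ^ (1 / 2 : ℝ)
  /-- the same at the primes of `S` -/
  ramified : ∀ p ∈ S, ∀ i, ‖β p i‖ < ((p : ℕ) : ℝ)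
  /-- the removed factors -/
  removed : ∀ x ∈ T, x.1 ∈ S ∧ ‖β x.1 x.2‖ = 1
  /-- the logarithms of the other factors at `S` have nonnegative coefficients -/
  nonneg : ∀ p ∈ S, ∀ k : ℕ, ∃ c : ℝ, 0 ≤ c ∧
    ∑ i, Set.indicator {i | (p, i) ∉ T} (fun i => β p i ^ (k + 1)) i = (c : ℂ)
  /-- the conductor -/
  one_le : 1 ≤ Q
  /-- the component at infinity is unitary -/
  conj : Multiset.map (fun j => (starRingEnd ℂ) (κ j)) Finset.univ.val = Multiset.map κ Finset.univ.val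
  /-- the bound of Jacquet and Shalika at infinity -/
  re : ∀ j, -1 < (κ j).re
  /-- a second factor `Γ_ℝ(s)`; for `n ≥ 3` there always is one -/
  zero : ∃ j, κ j = 0
  /-- `L(s, Π × Π~) = G(s) / (s - 1)`, `Ξ(s) = s (s - 1) Q^s Γ_ℝ(s) ∏_j Γ_ℝ(s + κ_j) L(s, Π × Π~)` -/
  continuation : ∃ (G Ξ : ℂ → ℂ) (ω : ℂ), Differentiable ℂ G ∧ Differentiable ℂ Ξ ∧ ‖ω‖ = 1 ∧
    (∀ s : ℂ, 1 < s.re → G s * ∏ p ∈ S, ∏ i, (1 - β p i * ((p : ℕ) : ℂ) ^ (-s)) =
      (s - 1) * riemannZeta s * Complex.exp (logAdQ α s)) ∧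
    (∀ a b : ℝ, ∃ C A : ℝ, ∀ s : ℂ, a ≤ s.re → s.re ≤ b → ‖G s‖ ≤ C * (1 + |s.im|) ^ A) ∧
    (∀ s : ℂ, 1 < s.re → Ξ s = s * G s * ((Q : ℂ) ^ s * Complex.Gammaℝ s * ∏ j, Complex.Gammaℝ (s + κ j))) ∧
    ∀ s : ℂ, Ξ (1 - s) = ω * Ξ s

/-- the Satake parameters of the adjoint lift `Ad π` to `GL_3` of a representation `π` of `GL_2` -/
noncomputable def lift3 (a : Fin 2 → ℂ) : Fin 3 → ℂ := ![a 0 / a 1, 1, a 1 / a 0]

/-- the Satake parameters of the lift `Sym⁴ π ⊗ ω^{-2}` to `GL_5` of a representation `π` of `GL_2` with the central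
character `ω` -/
noncomputable def lift5 (a : Fin 2 → ℂ) : Fin 5 → ℂ :=
  ![(a 0 / a 1) ^ 2, a 0 / a 1, 1, a 1 / a 0, (a 1 / a 0) ^ 2]

theorem general (K : Type) [Field K] [NumberField K] {ε : ℝ} (hε : 0 < ε) (m n : ℕ) :
    ∃ A : ℝ, 0 < A ∧ ∀ (S : Finset (HeightOneSpectrum (𝓞 K))) (α : Fin m → Places S → Fin n → ℂ)
      (β : Fin m → HeightOneSpectrum (𝓞 K) → Fin (n ^ 2 - 1) → ℂ)
      (T : Fin m → Finset (HeightOneSpectrum (𝓞 K) × Fin (n ^ 2 - 1)))
      (κ : Fin m → Fin ((n ^ 2 - 1) * Module.finrank ℚ K) → ℂ) (Q : Fin m → ℝ),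
      (∀ i, CuspidalGL (α i) (β i) (T i) (κ i) (Q i)) → (∃ i j, κ i j = 0) →
      ∃ (v : Places S) (k : ℕ), 1 ≤ k ∧
        (Nm v.1 : ℝ) ^ k ≤
          A * (∏ i, (Q i ^ 2 * (∏ j, (1 + ‖κ i j‖)) * ∏ x ∈ T i, (Nm x.1 : ℝ))) ^ (1 + ε) ∧
        ∑ i, ‖∑ j, α i v j ^ k‖ ^ 2 < m := by
  obtain ⟨A, hA0, hA⟩ := Pool.Agent.Y725.UG.gln_many K n m (n ^ 2 - 1) ((n ^ 2 - 1) * Module.finrank ℚ K)
    (Pool.Agent.Y725.UG.den_one_pow m) hε
  refine ⟨A, hA0, fun S α β T κ Q h hκ => ?_⟩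
  choose F Ξ ω hF hΞ hω hgr hE hΞF hfe using fun i => (h i).adjoint
  exact hA S α β T κ Q F
    (fun i => ⟨(h i).bound, (h i).ramified, (h i).removed, fun v hv k => by
      obtain ⟨c, hc, hc2⟩ := (h i).nonneg v hv k
      refine ⟨c, hc, ?_⟩
      rw [← hc2]
      refine Finset.sum_congr rfl fun j _ => ?_
      by_cases hj : (v, j) ∈ T i
      · rw [if_pos hj, Set.indicator_of_notMem (by simpa using hj)]
      · rw [if_neg hj, Set.indicator_of_mem (by simpa using hj)]⟩)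
    (fun i => ⟨(h i).one_le, (h i).conj, (h i).re, hF i, hgr i, Ξ i, ω i, hω i, hΞ i,
      fun s hs => hΞF i s (by linarith), hfe i⟩) hκ
    (fun i s hs => by
      rw [one_mul]
      exact hE i s (by linarith))

theorem small {m : ℕ} (f : Fin m → ℂ) {c : ℝ} (hc : 0 ≤ c) (hmc : (m : ℝ) ≤ c ^ 2)
    (hs : ∑ i, ‖f i‖ ^ 2 < m) (i : Fin m) : ‖f i‖ < c := by
  have h1 : ‖f i‖ ^ 2 ≤ ∑ i, ‖f i‖ ^ 2 :=
    Finset.single_le_sum (f := fun i => ‖f i‖ ^ 2) (fun i _ => sq_nonneg _) (Finset.mem_univ i)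
  exact lt_of_pow_lt_pow_left₀ 2 hc (by linarith)

/-- **Simultaneously tempered places.** -/
theorem result {ε : ℝ} (hε : 0 < ε) (m : ℕ) (hm : 2 ≤ m) :
    (∀ (K : Type) [Field K] [NumberField K], ∃ A : ℝ, 0 < A ∧
      ∀ (S : Finset (HeightOneSpectrum (𝓞 K))) (α : Fin m → Places S → Fin 2 → ℂ)
      (β : Fin m → HeightOneSpectrum (𝓞 K) → Fin (2 ^ 2 - 1) → ℂ)
      (T : Fin m → Finset (HeightOneSpectrum (𝓞 K) × Fin (2 ^ 2 - 1)))
      (κ : Fin m → Fin ((2 ^ 2 - 1) * Module.finrank ℚ K) → ℂ) (Q : Fin m → ℝ),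
      (∀ i, CuspidalGL (α i) (β i) (T i) (κ i) (Q i)) → (∃ i j, κ i j = 0) →
      ∃ (v : Places S) (k : ℕ), 1 ≤ k ∧
        (Nm v.1 : ℝ) ^ k ≤
          A * (∏ i, (Q i ^ 2 * (∏ j, (1 + ‖κ i j‖)) * ∏ x ∈ T i, (Nm x.1 : ℝ))) ^ (1 + ε) ∧
        ∑ i, ‖∑ j, α i v j ^ k‖ ^ 2 < m ∧ (m ≤ 4 → ∀ i j, ‖α i v j‖ = 1)) ∧
    (m ≤ 9 → ∀ (K : Type) [Field K] [NumberField K], ∃ A : ℝ, 0 < A ∧
      ∀ (S : Finset (HeightOneSpectrum (𝓞 K))) (α : Fin m → Places S → Fin 2 → ℂ)
      (β : Fin m → HeightOneSpectrum (𝓞 K) → Fin (3 ^ 2 - 1) → ℂ)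
      (T : Fin m → Finset (HeightOneSpectrum (𝓞 K) × Fin (3 ^ 2 - 1)))
      (κ : Fin m → Fin ((3 ^ 2 - 1) * Module.finrank ℚ K) → ℂ) (Q : Fin m → ℝ),
      (∀ i v, Unitary (α i v)) →
      (∀ i, CuspidalGL (fun v => lift3 (α i v)) (β i) (T i) (κ i) (Q i)) → (∃ i j, κ i j = 0) →
      ∃ v : Places S,
        (Nm v.1 : ℝ) ≤
          A * (∏ i, (Q i ^ 2 * (∏ j, (1 + ‖κ i j‖)) * ∏ x ∈ T i, (Nm x.1 : ℝ))) ^ (1 + ε) ∧
        ∀ i j, ‖α i v j‖ = 1) ∧
    (m ≤ 25 → ∃ A : ℝ, 0 < A ∧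
      ∀ (S : Finset Nat.Primes) (α : Fin m → Unram S → Fin 2 → ℂ)
      (β : Fin m → Nat.Primes → Fin (5 ^ 2 - 1) → ℂ) (T : Fin m → Finset (Nat.Primes × Fin (5 ^ 2 - 1)))
      (κ : Fin m → Fin (5 ^ 2 - 1) → ℂ) (Q : Fin m → ℝ),
      (∀ i p, Unitary (α i p)) →
      (∀ i, CuspidalQ (fun p => lift5 (α i p)) (β i) (T i) (κ i) (Q i)) →
      ∃ p : Unram S,
        ((p.1 : ℕ) : ℝ) ≤
          A * (∏ i, (Q i ^ 2 * (∏ j, (1 + ‖κ i j‖)) * ∏ x ∈ T i, ((x.1 : ℕ) : ℝ))) ^ (1 + ε) ∧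
        ∀ i j, ‖α i p j‖ = 1) := by
  refine ⟨fun K _ _ => ?_, fun hm9 K _ _ => ?_, fun hm25 => ?_⟩
  · obtain ⟨A, hA0, hA⟩ := general K hε m 2
    refine ⟨A, hA0, fun S α β T κ Q h hκ => ?_⟩
    obtain ⟨v, k, hk, hle, hlt⟩ := hA S α β T κ Q h hκ
    refine ⟨v, k, hk, hle, hlt, fun hm4 i => ?_⟩
    refine Pool.Agent.Y725.UG.temp_two ((h i).unitary v).1 ((h i).unitary v).2 (k := k) ?_
    have hm' : (m : ℝ) ≤ 4 := by exact_mod_cast hm4
    exact small (fun i => ∑ j, α i v j ^ k) (by norm_num) (by linarith) hlt i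
  · obtain ⟨A, hA0, hA⟩ := general K hε m 3
    refine ⟨A, hA0, fun S α β T κ Q hu h hκ => ?_⟩
    obtain ⟨v, k, hk, hle, hlt⟩ := hA S (fun i v => lift3 (α i v)) β T κ Q h hκ
    refine ⟨v, ?_, fun i => ?_⟩
    · refine le_trans ?_ hle
      have h1 : (1 : ℝ) ≤ (Nm v.1 : ℝ) := by
        have : 1 ≤ Nm v.1 := Nat.one_le_iff_ne_zero.2 (by
          unfold Nm
          exact Ideal.absNorm_eq_zero_iff.not.2 v.1.ne_bot)
        exact_mod_cast this
      exact le_self_pow₀ h1 (by omega)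
    · refine Pool.Agent.Y725.UG.temp_adj (hu i v).1 (hu i v).2 (k := k) ?_
      have hm' : (m : ℝ) ≤ 9 := by exact_mod_cast hm9
      exact small (fun i => ∑ j, lift3 (α i v) j ^ k) (by norm_num) (by linarith) hlt i
  · obtain ⟨A, hA0, hA⟩ := Pool.Agent.Y725.UG.rat_many 5 m (5 ^ 2 - 1) (5 ^ 2 - 1) hε
    refine ⟨A, hA0, fun S α β T κ Q hu h => ?_⟩
    obtain ⟨p, k, hk, hle, hlt⟩ := hA S (fun i p => lift5 (α i p)) β T κ Q (by omega)
      (fun i => ⟨(h i).bound, (h i).ramified, (h i).removed, (h i).nonneg, (h i).one_le, (h i).conj,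
        (h i).re, (h i).zero, (h i).continuation⟩)
    refine ⟨p, ?_, fun i => ?_⟩
    · refine le_trans ?_ hle
      have h1 : (1 : ℝ) ≤ ((p.1 : ℕ) : ℝ) := by exact_mod_cast p.1.2.one_le
      exact le_self_pow₀ h1 (by omega)
    · refine Pool.Agent.Y725.UG.temp_four (hu i p).1 (hu i p).2 (k := k) ?_
      have hm' : (m : ℝ) ≤ 25 := by exact_mod_cast hm25
      exact small (fun i => ∑ j, lift5 (α i p) j ^ k) (by norm_num) (by linarith) hlt i

end Pool.Agent.Results.MP_8410ab_nt.SimultaneouslyTempered
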