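import Mathlib
import Pool.Agent.Y816.GL3T.Main

/-!
# The Ramanujan conjecture for `GL(3)` over number fields: nontemperedness is bounded by the tempered places

Let `K` be a number field and `π` a unitary cuspidal automorphic representation of `GL_3` over `K`, unramified at the
finite places outside the finite set `S`, with Satake parameters `α_{i,v}`, `i = 1, 2, 3`, `v ∉ S`. The component `π_v`
is tempered iff `|α_{i,v}| = 1` for all `i`, i.e. iff the *defect* `Δ_v = ∑_i (|α_{i,v}| - 1)²` vanishes. Let
`a_v = ∑_i α_{i,v}`, and write `N v` for the norm of `v` (`qq v` below). We bound the total defect by the number of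
the places at which the Ramanujan conjecture holds.

* *At every scale.* For every `ε > 0` and **all** large `X`,

    `∑_{N v ≤ X} Δ_v ≤ X^ε · #{v : N v ≤ X^{1+ε}, π_v tempered}`.

  So, for every `δ > 0`, the places with `|α_{i,v}| ≥ 1 + δ` for some `i` are never polynomially more numerous than
  the places at which `π_v` is tempered.

* *With the sharp constant `1`, in the sense of Dirichlet series.* For some `C` and all `σ > 1`,

    `∑_v Δ_v (N v)^{-σ} ≤ ∑_{π_v tempered} max(0, 1 - |a_v|²) (N v)^{-σ} + C`.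

* *Densities.* For every `δ > 0` there is a `C` such that for all `σ > 1`, with `T = (1 + δ) + (1 + δ)⁻¹`,

    `T (T - 2) ∑_{|α_{i,v}| ≥ 1 + δ for some i} (N v)^{-σ} ≤ ∑_{π_v tempered} (N v)^{-σ} + C`

  (`T (T - 2) = (1 + δ² / (1 + δ))² - 1`). So the places with `|α_{i,v}| ≥ 1 + δ` for some `i` have upper Dirichlet
  density at most `δ_temp / (T (T - 2))`, where `δ_temp` is the upper density of the tempered places, and at most
  `1 / (T - 1)²` in any case. If the tempered places have density zero (which is not excluded at present), then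
  `max_i |α_{i,v}| → 1` along the places outside a set of density zero.

Known before: there are infinitely many places at which `π_v` is tempered (Ramakrishnan), at least `X^c` up to `X`,
`c < 1/2`, at every scale, and `x^c`, `c < 1/2 + 1/(16 [K : ℚ])`, infinitely often (`TemperedEveryScaleGL3` of
`MP_08cfa9_nt`, `SmallEigenvaluesGL3` of this problem). These results do not compare the tempered places with the
nontempered ones.

The structure `AdjointGL3` (from `TemperedEveryScaleGL3`) lists what is used of `π`, all of it is known: the local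
components are unitary; the Rankin-Selberg series converges absolutely for `Re s > 1`; the adjoint `L`-function
`L(s, π, Ad) = L(s, π × π~) / ζ_K(s)` is meromorphic in the plane, satisfies the functional equation, has polynomial
growth in vertical strips and is holomorphic for `Re s ≥ 1/2` and for `|Im s|` large (Ginzburg-Jiang, Hundley-Zhang).

The proof: a nontempered `π_v` has parameters `(r u, u / r, w)`, `|u| = |w| = 1`, `r > 1`, so that
`Δ_v = (r - 1)² + (1/r - 1)² = (r + 1/r - 1)² - 1 ≤ |a_v|² - 1`. Let `b ≥ 1/2` be the least upper bound of the real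
parts of the zeros and poles of `F(s) = L^S(s, π, Ad)`, and `log F(s) = ∑ d(q) q^{-s}`. The explicit formula with
the weight `exp(-(log q - Y)² / 4 η Y)` at a real point slightly to the right of `b` shows that the positive `d(q)`
with `log q` near `Y` are compensated by the negative ones up to `exp((b + ε) Y)`; to the left of `b` it shows that
the negative ones contribute at least `exp((b - ε) Y)`. So the positive ones never exceed the negative ones by more
than a factor `exp(ε Y)`, and the negative ones come from tempered places.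
-/

set_option autoImplicit false

namespace Pool.Agent.Results.MP_8410ab_nt.TemperedMajority

open NumberField IsDedekindDomain Pool.Agent.TH861.GL3
open Pool.Agent.TH949.TX (AdjointGL3)

open scoped Classical in
/-- **The total defect is bounded by the number of tempered places.** -/
theorem result {K : Type*} [Field K] [NumberField K] {S : Finset (HeightOneSpectrum (𝓞 K))}
    {α : PL S → Fin 3 → ℂ} (h : AdjointGL3 α) :
    (∀ ε : ℝ, 0 < ε → ∃ X₀ : ℝ, ∀ X : ℝ, X₀ ≤ X →
      (∑' v : PL S, if (qq v.1 : ℝ) ≤ X then ∑ i, (‖α v i‖ - 1) ^ 2 else 0) ≤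
        X ^ ε * (({v : PL S | (qq v.1 : ℝ) ≤ X ^ (1 + ε) ∧ ∀ i, ‖α v i‖ = 1}.ncard : ℕ) : ℝ)) ∧
    (∃ C : ℝ, ∀ σ : ℝ, 1 < σ →
      (Summable fun v : PL S => (∑ i, (‖α v i‖ - 1) ^ 2) * (qq v.1 : ℝ) ^ (-σ)) ∧
      ∑' v : PL S, (∑ i, (‖α v i‖ - 1) ^ 2) * (qq v.1 : ℝ) ^ (-σ) ≤
        ∑' v : PL S, (if ∀ i, ‖α v i‖ = 1 then max 0 (1 - ‖∑ i, α v i‖ ^ 2) else 0) * (qq v.1 : ℝ) ^ (-σ) + C) ∧
    ∀ δ : ℝ, 0 < δ → ∃ C : ℝ, ∀ σ : ℝ, 1 < σ →
      ((1 + δ ^ 2 / (1 + δ)) ^ 2 - 1) *
          ∑' v : PL S, (if ∃ i, 1 + δ ≤ ‖α v i‖ then (qq v.1 : ℝ) ^ (-σ) else 0) ≤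
        ∑' v : PL S, (if ∀ i, ‖α v i‖ = 1 then (qq v.1 : ℝ) ^ (-σ) else 0) + C := by
  refine ⟨fun ε hε => Filter.eventually_atTop.1 (Pool.Agent.Y816.GL3T.scales h hε), ?_, fun δ hδ => ?_⟩
  · refine Pool.Agent.Y816.GL3T.weight_bound h.auto.cuspidal (fun v => Finset.sum_nonneg fun i _ => sq_nonneg _)
      (fun v => ?_) (fun v => ?_) (fun v => ?_)
    · split_ifs
      · exact le_max_left _ _
      · exact le_rfl
    · split_ifs
      · exact max_le zero_le_one (by nlinarith [sq_nonneg ‖∑ i, α v i‖])
      · exact zero_le_one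
    · by_cases ht : ∀ i, ‖α v i‖ = 1
      · have e : ∑ i, (‖α v i‖ - 1) ^ 2 = 0 := Finset.sum_eq_zero fun i _ => by rw [ht i]; norm_num
        rw [e, if_pos ht]
        have := le_max_right 0 (1 - ‖∑ i, α v i‖ ^ 2)
        linarith
      · rw [if_neg ht, sub_zero]
        exact Pool.Agent.Y816.GL3T.defect_le (h.unitary v) ht
  · have hm : 0 ≤ (1 + δ ^ 2 / (1 + δ)) ^ 2 - 1 := by
      have h1 : 0 ≤ δ ^ 2 / (1 + δ) := by positivity
      nlinarith
    have hfg : ∀ v : PL S, (((1 + δ ^ 2 / (1 + δ)) ^ 2 - 1) * if ∃ i, 1 + δ ≤ ‖α v i‖ then 1 else 0) -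
        (if ∀ i, ‖α v i‖ = 1 then 1 else 0) ≤ ‖∑ i, α v i‖ ^ 2 - 1 := by
      intro v
      have h3 : 0 ≤ ‖∑ i, α v i‖ ^ 2 := sq_nonneg _
      by_cases ht : ∀ i, ‖α v i‖ = 1
      · have hB : ¬ ∃ i, 1 + δ ≤ ‖α v i‖ := by
          rintro ⟨i, hi⟩
          have := ht i
          linarith
        rw [if_neg hB, if_pos ht]
        linarith
      · rw [if_neg ht, sub_zero]
        by_cases hB : ∃ i, 1 + δ ≤ ‖α v i‖
        · rw [if_pos hB, mul_one]
          exact Pool.Agent.Y816.GL3T.large_le (h.unitary v) hδ hB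
        · rw [if_neg hB, mul_zero]
          have := nontemp_pow (h.unitary v) ht 1
          simpa using this
    obtain ⟨C, hC⟩ := Pool.Agent.Y816.GL3T.weight_bound h.auto.cuspidal
      (f := fun v => ((1 + δ ^ 2 / (1 + δ)) ^ 2 - 1) * if ∃ i, 1 + δ ≤ ‖α v i‖ then 1 else 0)
      (g := fun v => if ∀ i, ‖α v i‖ = 1 then 1 else 0) (fun v => mul_nonneg hm (by split_ifs <;> norm_num))
      (fun v => by split_ifs <;> norm_num) (fun v => by split_ifs <;> norm_num) hfg
    refine ⟨C, fun σ hσ => ?_⟩
    have h2 := (hC σ hσ).2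
    simp only [mul_assoc, tsum_mul_left, ite_mul, one_mul, zero_mul] at h2
    exact h2

end Pool.Agent.Results.MP_8410ab_nt.TemperedMajority
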